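import Pool.Agent.Y862.CH.All

set_option autoImplicit false

/-!
# The number of angle-linear moves needed to straighten a planar chain: four links against five

The earlier result `NoPolyBound` of this repository gives, for every `N`, a chain with five links and a
simple configuration of it from which every straightening motion that is piecewise linear in angle space
needs more than `N` moves. Here the numbers of links for which such chains exist are determined, and the
class of motions is enlarged:

* every simple configuration of a chain with at most four links is straightened by at most as many moves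
  as it has joints that are not straight, in particular by at most `n - 1` moves;
* for every `n ≥ 5`, all `d` and all `N` there are a chain with `n` links and a simple configuration of it
  from which every straightening motion that is piecewise polynomial of degree at most `d` in angle space
  has more than `N` pieces. The case `d = 1` are the moves of the problem.

The basic definitions (`Simple`, `HasLengths`, `JointAngle`, `IsMotion`, `StraightenedBy`) are those of
`Pool/Agent/Helper134/ChainDefs.lean`, used in `NoPolyBound`; `PolyStraightenedBy` is defined in
`Pool/Agent/Y862/CH/Stm.lean` and `bentJoints` in `Pool/Agent/Y862/CH/All.lean`.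

Idea for four links `d, a, o, b, c`: one of the joints `a`, `o`, `b` which are not straight can be opened
to a straight angle by rotating the part of the chain behind it, the other angles being kept. If the
opening of `a` is blocked by `[o, b]`, then `[d, a]` lies inside the angle at `o`, and then the opening
of `o` or that of `b` is not blocked. If it is blocked by `[b, c]`, and the opening of `b` by `[d, a]`,
one of these two links lies on one side of the line through the other one, and the opening of `o` moves
them apart.
-/

namespace Pool.Agent.Results.MP_7e0f10_lc.ExactThreshold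

open CH134 Pool.Agent.Y862.CH

/-- Sanity check: the motions of the problem are piecewise polynomial of degree at most one. -/
theorem moves_are_polynomial (n k : ℕ) (l : ℕ → ℝ) (q : ℕ → ℂ) (h : StraightenedBy n l q k) :
    PolyStraightenedBy n 1 l q k :=
  poly_of_moves h

/-- **Exact threshold.**
(1) For `n ≤ 4` every simple configuration `q` of every chain with `n` links is straightened by at most
`bentJoints n q ≤ n - 1` moves.
(2) For every `n ≥ 5`, every `d` and every `N` there are a chain with `n` links and a simple configuration
of it from which every straightening motion that is piecewise polynomial of degree at most `d` in angle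
space has more than `N` pieces.
(3) In particular, for every `n ≥ 5` and every `N` there are a chain with `n` links and a simple
configuration of it from which every straightening motion that is piecewise linear in angle space uses
more than `N` moves; and for a number `n` of links a bound for the number of moves that depends on `n`
alone exists if and only if `n ≤ 4`. -/
theorem result :
    (∀ n : ℕ, n ≤ 4 → ∀ (l : ℕ → ℝ) (q : ℕ → ℂ), (∀ i < n, 0 < l i) → HasLengths n l q →
      Simple n q → bentJoints n q ≤ n - 1 ∧ ∃ k ≤ bentJoints n q, StraightenedBy n l q k) ∧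
    (∀ n : ℕ, 5 ≤ n → ∀ d N : ℕ, ∃ (l : ℕ → ℝ) (q : ℕ → ℂ), (∀ i < n, 0 < l i) ∧
      HasLengths n l q ∧ Simple n q ∧ ∀ k : ℕ, PolyStraightenedBy n d l q k → N < k) ∧
    (∀ n : ℕ, 5 ≤ n → ∀ N : ℕ, ∃ (l : ℕ → ℝ) (q : ℕ → ℂ), (∀ i < n, 0 < l i) ∧
      HasLengths n l q ∧ Simple n q ∧ ∀ k : ℕ, StraightenedBy n l q k → N < k) ∧
    ∀ n : ℕ, (∃ N : ℕ, ∀ (l : ℕ → ℝ) (q : ℕ → ℂ), (∀ i < n, 0 < l i) → HasLengths n l q →
      Simple n q → ∃ k ≤ N, StraightenedBy n l q k) ↔ n ≤ 4 := by
  have h1 : ∀ n : ℕ, n ≤ 4 → ∀ (l : ℕ → ℝ) (q : ℕ → ℂ), (∀ i < n, 0 < l i) → HasLengths n l q →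
      Simple n q → bentJoints n q ≤ n - 1 ∧ ∃ k ≤ bentJoints n q, StraightenedBy n l q k := by
    intro n hn l q hl h hs
    classical
    refine ⟨?_, at_most_four (4 - n) n (by omega) l q hl h hs⟩
    unfold bentJoints
    exact (Finset.card_filter_le _ _).trans_eq (Finset.card_range _)
  have h3 : ∀ n : ℕ, 5 ≤ n → ∀ N : ℕ, ∃ (l : ℕ → ℝ) (q : ℕ → ℂ), (∀ i < n, 0 < l i) ∧
      HasLengths n l q ∧ Simple n q ∧ ∀ k : ℕ, StraightenedBy n l q k → N < k := by
    intro n hn N
    obtain ⟨l, q, a1, a2, a3, a4⟩ := at_least_five n hn 1 N
    exact ⟨l, q, a1, a2, a3, fun k hk => a4 k (poly_of_moves hk)⟩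
  refine ⟨h1, at_least_five, h3, fun n => ⟨?_, fun hn => ⟨n - 1, fun l q hl h hs => ?_⟩⟩⟩
  · rintro ⟨N, hN⟩
    by_contra hn
    obtain ⟨l, q, a1, a2, a3, a4⟩ := h3 n (by omega) N
    obtain ⟨k, hk, hst⟩ := hN l q a1 a2 a3
    have := a4 k hst
    omega
  · obtain ⟨b, k, hk, hst⟩ := h1 n hn l q hl h hs
    exact ⟨k, hk.trans b, hst⟩

end Pool.Agent.Results.MP_7e0f10_lc.ExactThreshold
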